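import Mathlib
import Pool.Agent.Helpers.Rev783e

set_option autoImplicit false

namespace Pool.Agent.Results.MP_63f2dd_al.FiniteOrder

/-- An `n`-tuple of formal power series in `n` variables over `ℂ`. -/
abbrev FMap (n : ℕ) := Fin n → MvPowerSeries (Fin n) ℂ

/-- The composition `F ∘ G`: the variables of `F` are replaced by the components of `G`. -/
noncomputable def comp {n : ℕ} (F G : FMap n) : FMap n := fun i => MvPowerSeries.subst G (F i)

/-- The identity map. -/
noncomputable def one (n : ℕ) : FMap n := fun i => MvPowerSeries.X i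

/-- All constant terms vanish. -/
def NoConst {n : ℕ} (F : FMap n) : Prop := ∀ i, MvPowerSeries.constantCoeff (F i) = 0

/-- `F` and `G` are mutually inverse formal maps without constant terms. -/
def IsInv {n : ℕ} (F G : FMap n) : Prop :=
  NoConst F ∧ NoConst G ∧ comp F G = one n ∧ comp G F = one n

/-- `F` is a formally invertible formal map. -/
def Formal {n : ℕ} (F : FMap n) : Prop := ∃ G, IsInv F G

/-- `H ∘ F ∘ H⁻¹ = F⁻¹`. -/
def Reverses {n : ℕ} (H F : FMap n) : Prop :=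
  ∃ F' H' : FMap n, IsInv F F' ∧ IsInv H H' ∧ comp (comp H F) H' = F'

/-- Some iterate `F ∘ ... ∘ F` (`k ≥ 1` factors) is the identity. -/
def FiniteOrder {n : ℕ} (F : FMap n) : Prop := ∃ k : ℕ, 1 ≤ k ∧ (comp F)^[k] (one n) = one n

theorem hs {n : ℕ} {F : FMap n} (h : NoConst F) : MvPowerSeries.HasSubst F :=
  MvPowerSeries.hasSubst_of_constantCoeff_zero h

theorem assoc {n : ℕ} {F G H : FMap n} (hG : NoConst G) (hH : NoConst H) :
    comp (comp F G) H = comp F (comp G H) := by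
  funext i
  exact MvPowerSeries.subst_comp_subst_apply (hs hG) (hs hH) (F i)

theorem comp_one {n : ℕ} (F : FMap n) : comp F (one n) = F := by
  funext i
  show MvPowerSeries.subst (fun i => MvPowerSeries.X i) (F i) = F i
  exact congrFun (MvPowerSeries.subst_self (σ := Fin n) (R := ℂ)) (F i)

theorem one_comp {n : ℕ} {F : FMap n} (h : NoConst F) : comp (one n) F = F := by
  funext i
  exact MvPowerSeries.subst_X (hs h) i

theorem noConst_one (n : ℕ) : NoConst (one n) := fun i => MvPowerSeries.constantCoeff_X i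

theorem noConst_comp {n : ℕ} {F G : FMap n} (hF : NoConst F) (hG : NoConst G) :
    NoConst (comp F G) := fun i =>
  MvPowerSeries.constantCoeff_subst_eq_zero (hs hG) hG (hF i)

theorem isInv_comp {n : ℕ} {F F' G G' : FMap n} (hF : IsInv F F') (hG : IsInv G G') :
    IsInv (comp F G) (comp G' F') := by
  obtain ⟨a1, a2, a3, a4⟩ := hF
  obtain ⟨b1, b2, b3, b4⟩ := hG
  refine ⟨noConst_comp a1 b1, noConst_comp b2 a2, ?_, ?_⟩
  · rw [assoc b1 (noConst_comp b2 a2), ← assoc b2 a2, b3, one_comp a2, a3]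
  · rw [assoc a2 (noConst_comp a1 b1), ← assoc a1 b1, a4, one_comp b1, b4]

/-- The group of formal maps (used in the proof). -/
def Gp (n : ℕ) : Type := {F : FMap n // Formal F}

theorem Formal.noConst {n : ℕ} {F : FMap n} (h : Formal F) : NoConst F := by
  obtain ⟨_, h, _⟩ := h
  exact h

theorem isInv_symm {n : ℕ} {F G : FMap n} (h : IsInv F G) : IsInv G F :=
  ⟨h.2.1, h.1, h.2.2.2, h.2.2.1⟩

noncomputable instance (n : ℕ) : Group (Gp n) where
  mul f g := ⟨comp f.1 g.1, by
    obtain ⟨F', hF⟩ := f.2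
    obtain ⟨G', hG⟩ := g.2
    exact ⟨_, isInv_comp hF hG⟩⟩
  one := ⟨one n, one n, noConst_one n, noConst_one n, comp_one _, comp_one _⟩
  inv f := ⟨f.2.choose, f.1, isInv_symm f.2.choose_spec⟩
  mul_assoc f g h := Subtype.ext (assoc g.2.noConst h.2.noConst)
  one_mul f := Subtype.ext (one_comp f.2.noConst)
  mul_one f := Subtype.ext (comp_one f.1)
  inv_mul_cancel f := Subtype.ext f.2.choose_spec.2.2.2

theorem val_mul {n : ℕ} (f g : Gp n) : (f * g).1 = comp f.1 g.1 := rfl

theorem val_one {n : ℕ} : (1 : Gp n).1 = one n := rfl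

theorem inv_of {n : ℕ} {f g : Gp n} (h : IsInv f.1 g.1) : g = f⁻¹ := by
  apply eq_inv_of_mul_eq_one_right
  apply Subtype.ext
  exact h.2.2.1

theorem isInv_inv {n : ℕ} (f : Gp n) : IsInv f.1 (f⁻¹).1 := f.2.choose_spec

theorem reverses_iff {n : ℕ} (h f : Gp n) : Reverses h.1 f.1 ↔ h * f * h⁻¹ = f⁻¹ := by
  constructor
  · rintro ⟨F', H', h1, h2, h3⟩
    have e1 : (⟨F', f.1, isInv_symm h1⟩ : Gp n) = f⁻¹ := inv_of h1
    have e2 : (⟨H', h.1, isInv_symm h2⟩ : Gp n) = h⁻¹ := inv_of h2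
    rw [← e1, ← e2]
    exact Subtype.ext h3
  · intro e
    exact ⟨_, _, isInv_inv f, isInv_inv h, congrArg Subtype.val e⟩

theorem iter_eq {n : ℕ} (f : Gp n) (k : ℕ) : (comp f.1)^[k] (one n) = (f ^ k).1 := by
  induction k with
  | zero => rfl
  | succ k ih =>
    rw [Function.iterate_succ_apply', ih, pow_succ']
    rfl

theorem finiteOrder_iff {n : ℕ} (f : Gp n) : FiniteOrder f.1 ↔ ∃ k : ℕ, 1 ≤ k ∧ f ^ k = 1 := by
  constructor
  · rintro ⟨k, hk, h⟩
    exact ⟨k, hk, Subtype.ext (by rw [← iter_eq, h]; rfl)⟩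
  · rintro ⟨k, hk, h⟩
    exact ⟨k, hk, by rw [iter_eq, h]; rfl⟩

theorem formal_of_finiteOrder {n : ℕ} {K : FMap n} (hK : NoConst K) (h : FiniteOrder K) :
    Formal K := by
  obtain ⟨k, hk, h⟩ := h
  obtain ⟨m, rfl⟩ : ∃ m, k = m + 1 := ⟨k - 1, by omega⟩
  have hnc : ∀ m, NoConst ((comp K)^[m] (one n)) := by
    intro m
    induction m with
    | zero => exact noConst_one n
    | succ m ih =>
      rw [Function.iterate_succ_apply']
      exact noConst_comp hK ih
  have hit : ∀ m, comp ((comp K)^[m] (one n)) K = (comp K)^[m + 1] (one n) := by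
    intro m
    induction m with
    | zero =>
      show comp (one n) K = comp K (one n)
      rw [one_comp hK, comp_one]
    | succ m ih =>
      calc comp ((comp K)^[m + 1] (one n)) K
          = comp (comp K ((comp K)^[m] (one n))) K := by rw [Function.iterate_succ_apply']
        _ = comp K (comp ((comp K)^[m] (one n)) K) := assoc (hnc m) hK
        _ = comp K ((comp K)^[m + 1] (one n)) := by rw [ih]
        _ = _ := (Function.iterate_succ_apply' (comp K) (m + 1) (one n)).symm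
  refine ⟨(comp K)^[m] (one n), hK, hnc m, ?_, ?_⟩
  · rw [← Function.iterate_succ_apply' (comp K)]
    exact h
  · rw [hit]
    exact h

theorem exists_fin {n : ℕ} (f h : Gp n) (hr : h * f * h⁻¹ = f⁻¹) :
    ∃ k : Gp n, (∃ m : ℕ, 1 ≤ m ∧ k ^ m = 1) ∧ k * f * k⁻¹ = f⁻¹ := by
  have hrel : f * (h * f) = h := by
    have : h * f = f⁻¹ * h := by rw [← hr]; group
    rw [this]; group
  obtain ⟨F', hF⟩ := f.2
  obtain ⟨H', hH⟩ := h.2
  obtain ⟨K, hK0, hKfin, hKrel⟩ := Pool.Agent.Rev783e.finite_order_reverser n f.1 h.1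
    (fun i => f.2.noConst i)
    ⟨F', fun i => hF.2.1 i, fun i => congrFun hF.2.2.1 i, fun i => congrFun hF.2.2.2 i⟩
    (fun i => h.2.noConst i)
    ⟨H', fun i => hH.2.1 i, fun i => congrFun hH.2.2.1 i, fun i => congrFun hH.2.2.2 i⟩
    (fun i => congrFun (congrArg Subtype.val hrel) i)
  have hnc : NoConst K := fun i => hK0 i
  have hfo : FiniteOrder K := hKfin
  let k : Gp n := ⟨K, formal_of_finiteOrder hnc hfo⟩
  have e : f * (k * f) = k := Subtype.ext (funext hKrel)
  refine ⟨k, (finiteOrder_iff k).1 hfo, ?_⟩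
  have : k * f = f⁻¹ * k := by
    rw [eq_inv_mul_iff_mul_eq]; exact e
  rw [this]; group

/-- For a formally invertible formal map `F` in `n` variables over `ℂ` the following are
equivalent: `F` is reversible; `F` is reversed by an element of finite order; `F = A ∘ B` for
formally invertible maps `A`, `B` of finite order such that `A ∘ A ∘ B ∘ B` is the identity. -/
theorem result : ∀ (n : ℕ) (F : FMap n), Formal F →
    ((∃ H, Formal H ∧ Reverses H F) ↔ ∃ H, Formal H ∧ FiniteOrder H ∧ Reverses H F) ∧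
    ((∃ H, Formal H ∧ Reverses H F) ↔ ∃ A B, Formal A ∧ Formal B ∧ FiniteOrder A ∧
      FiniteOrder B ∧ comp (comp A A) (comp B B) = one n ∧ F = comp A B) := by
  intro n F hF
  let f : Gp n := ⟨F, hF⟩
  have key : (∃ H, Formal H ∧ Reverses H F) →
      ∃ k : Gp n, (∃ m : ℕ, 1 ≤ m ∧ k ^ m = 1) ∧ k * f * k⁻¹ = f⁻¹ := by
    rintro ⟨H, hH, hr⟩
    exact exists_fin f ⟨H, hH⟩ ((reverses_iff ⟨H, hH⟩ f).1 hr)
  refine ⟨⟨fun h => ?_, fun ⟨H, h1, _, h2⟩ => ⟨H, h1, h2⟩⟩, fun h => ?_, ?_⟩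
  · obtain ⟨k, hk, hr⟩ := key h
    exact ⟨k.1, k.2, (finiteOrder_iff k).2 hk, (reverses_iff k f).2 hr⟩
  · obtain ⟨k, ⟨m, hm, hk⟩, hr⟩ := key h
    have hsq : (f * k) * (f * k) = k * k := by
      have : k * f = f⁻¹ * k := by rw [← hr]; group
      calc (f * k) * (f * k) = f * (k * f) * k := by group
        _ = k * k := by rw [this]; group
    refine ⟨(f * k).1, (k⁻¹).1, (f * k).2, (k⁻¹).2, (finiteOrder_iff _).2 ⟨2 * m, by omega, ?_⟩,
      (finiteOrder_iff _).2 ⟨m, hm, by rw [inv_pow, hk, inv_one]⟩, ?_, ?_⟩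
    · rw [pow_mul, pow_two, hsq, ← pow_two, ← pow_mul, mul_comm, pow_mul, hk, one_pow]
    · have : ((f * k) * (f * k)) * (k⁻¹ * k⁻¹) = 1 := by rw [hsq]; group
      exact congrArg Subtype.val this
    · have : f = (f * k) * k⁻¹ := by group
      exact congrArg Subtype.val this
  · rintro ⟨A, B, hA, hB, -, -, h1, h2⟩
    let a : Gp n := ⟨A, hA⟩
    let b : Gp n := ⟨B, hB⟩
    have e1 : (a * a) * (b * b) = 1 := Subtype.ext h1
    have e2 : f = a * b := Subtype.ext h2
    refine ⟨b.1, b.2, (reverses_iff b f).2 ?_⟩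
    rw [e2]
    have e3 : b * a = b⁻¹ * a⁻¹ := by
      have e6 : b * b * a = a⁻¹ := by
        have e4 : (b * b) * (a * a) = 1 := mul_eq_one_comm.1 e1
        rw [eq_inv_iff_mul_eq_one, ← e4, mul_assoc]
      have : b * a = b⁻¹ * (b * b * a) := by group
      rw [this, e6]
    calc b * (a * b) * b⁻¹ = b * a := by group
      _ = (a * b)⁻¹ := by rw [e3]; group

end Pool.Agent.Results.MP_63f2dd_al.FiniteOrder
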